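import Pool.Agent.Helper51.SF.State

/-!
# The steps of the tower
-/

set_option autoImplicit false
set_option linter.all false

open Polynomial Cardinal
open scoped Polynomial.Bivariate

namespace Pool.Agent.Helper51.SFinal

open SF Pool.Agent.Helper51.C2

variable {Om : Type} [Field Om] [CharZero Om] [IsAlgClosed Om] [Uncountable Om]
variable {E : Subfield Om} {z x y b : Om}

theorem N3_mapRing {R S : Type*} [CommRing R] [CommRing S] (f : R →+* S) (a g0 g1 g2 : R) :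
    N3 (f a) (f g0) (f g1) (f g2) = f (N3 a g0 g1 g2) := by
  simp only [N3, map_sub, map_add, map_mul, map_pow, map_ofNat]

/-- step (C1) -/
theorem step_c1 (s : St E z x y b) (f : Om[X]) (hf : CoefIn s.F f) :
    ∃ s', s ≤ s' ∧ solved s' (Task.c1 f) := by
  classical
  by_cases h1 : IrrOver s.F f ∧ (∃ r ∈ E, f.eval r = 0) ∧ (∃ r ∈ E, (f.map (s.θ : Om →+* Om)).eval r = 0)
  · obtain ⟨hirr, ⟨r, hrE, hr⟩, ⟨r', hr'E, hr'⟩⟩ := h1
    by_cases hf0 : f = 0
    · refine ⟨s, le_rfl, fun _ _ _ => ⟨0, zero_mem _, by rw [hf0]; simp⟩⟩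
    obtain ⟨f', hf'⟩ := CoefIn.exists_map hf
    have hf'0 : f' ≠ 0 := by
      rintro rfl
      apply hf0
      rw [← hf']; simp
    have hralg : IsAlgebraic s.F r := by
      refine ⟨f', hf'0, ?_⟩
      rw [← hf', eval_map] at hr
      exact hr
    obtain ⟨g, hg⟩ := minpoly.dvd s.F r (by rw [← hf', eval_map] at hr; exact hr : aeval r f' = 0)
    have hfg : f = (minpoly s.F r).map s.F.subtype * g.map s.F.subtype := by
      rw [← hf', hg, Polynomial.map_mul]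
    have h2 := hirr _ _ (coefIn_map s.F _) (coefIn_map s.F _) hfg
    rw [natDegree_map, natDegree_map] at h2
    have h3 : g.natDegree = 0 := by
      rcases h2 with h2 | h2
      · exact absurd h2 (minpoly.natDegree_pos hralg.isIntegral).ne'
      · exact h2
    have hg0 : g ≠ 0 := by
      rintro rfl
      apply hf'0
      rw [hg, mul_zero]
    let ρ : Om := s.θ.symm r'
    have hρ : f.eval ρ = 0 := by
      apply s.θ.injective
      have h4 : (f.map (s.θ : Om →+* Om)).eval (s.θ ρ) = s.θ (f.eval ρ) := by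
        rw [eval_map]
        exact eval₂_at_apply (s.θ : Om →+* Om) ρ
      rw [map_zero, ← h4]
      simp only [ρ, RingEquiv.apply_symm_apply]
      exact hr'
    have hρ2 : aeval ρ (minpoly s.F r) = 0 := by
      rw [hfg, eval_mul] at hρ
      rcases mul_eq_zero.1 hρ with h4 | h4
      · rw [eval_map] at h4
        exact h4
      · exfalso
        rw [eq_C_of_natDegree_eq_zero h3] at h4
        rw [Polynomial.map_C, eval_C] at h4
        have h5 : g.coeff 0 = 0 := by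
          apply Subtype.ext
          exact h4
        apply hg0
        rw [eq_C_of_natDegree_eq_zero h3, h5, C_0]
    obtain ⟨σ, hσ⟩ := exists_conj hralg hρ2
    obtain ⟨s', hs', hA⟩ := s.exists_ext (σ : Om ≃+* Om) (fun t ht => σ.commutes ⟨t, ht⟩) {r}
      (Set.countable_singleton r) (by rintro t rfl; exact hrE) (by
        rintro t rfl
        change s.θ (σ t) ∈ E
        rw [hσ]
        simp only [ρ, RingEquiv.apply_symm_apply]
        exact hr'E)
    exact ⟨s', hs', fun _ _ _ => ⟨r, hA r rfl, hr⟩⟩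
  · refine ⟨s, le_rfl, fun a1 a2 a3 => absurd ⟨a1, a2, a3⟩ h1⟩

theorem cc_mem (s : St E z x y b) (d : Bool) : cc y b d ∈ s.F := by
  cases d
  · exact mul_mem s.hy s.hb
  · exact div_mem s.hb s.hy

/-- step (C2) -/
theorem step_c2 (hE : Algebra.IsAlgebraic E Om) (hz : z ^ 2 + z + 1 = 0) (hx0 : x ≠ 0) (hy0 : y ≠ 0)
    (hb0 : b ≠ 0) (s : St E z x y b) (d : Bool) (f : Om[X]) (hf : CoefIn s.F f) :
    ∃ s', s ≤ s' ∧ solved s' (Task.c2 d f) := by
  classical
  haveI := s.cnt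
  have hc0 : cc y b d ≠ 0 := by
    cases d
    · exact mul_ne_zero hy0 hb0
    · exact div_ne_zero hb0 hy0
  by_cases h1 : f.Separable ∧
      (∃ g : Fin 3 → Om[X], (∀ k, CoefIn E (g k)) ∧ f ∣ N3 (C (cc y b d)) (g 0) (g 1) (g 2) - C x) ∧
      (∃ g : Fin 3 → Om[X], (∀ k, CoefIn E (g k)) ∧
        f.map (s.θ : Om →+* Om) ∣ N3 (C (s.θ (cc y b d))) (g 0) (g 1) (g 2) - C x)
  · obtain ⟨hsep, ⟨g, hgE, hg⟩, ⟨h, hhE, hh⟩⟩ := h1
    let E2 : Subfield Om := E.comap (s.θ : Om ≃+* Om).toRingHom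
    have hF2 : s.F ≤ E2 := fun t ht => s.mem t ht
    have hE2 : Algebra.IsAlgebraic E2 Om := by
      constructor
      intro t
      obtain ⟨p, hp0, hp⟩ := hE.isAlgebraic (s.θ t)
      let φ : E →+* E2 := ((s.θ.symm : Om ≃+* Om).toRingHom.comp E.subtype).codRestrict E2 (by
        intro e
        change s.θ (s.θ.symm e.1) ∈ E
        rw [RingEquiv.apply_symm_apply]
        exact e.2)
      refine ⟨p.map φ, ?_, ?_⟩
      · intro h0
        exact hp0 (by rwa [Polynomial.map_eq_zero] at h0)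
      · have h2 : aeval t (p.map φ) = s.θ.symm (aeval (s.θ t) p) := by
          rw [aeval_def, aeval_def, eval₂_map]
          have h3 : (s.θ.symm : Om →+* Om) (eval₂ (algebraMap E Om) (s.θ t) p) =
              eval₂ ((s.θ.symm : Om →+* Om).comp (algebraMap E Om)) ((s.θ.symm : Om →+* Om) (s.θ t)) p :=
            Polynomial.hom_eval₂ _ _ _ _
          have h4 : (s.θ.symm : Om →+* Om) (s.θ t) = t := s.θ.symm_apply_apply t
          rw [h4] at h3
          exact h3.symm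
        rw [h2, hp, map_zero]
    have hh' : f ∣ N3 (C (cc y b d)) ((h 0).map (s.θ.symm : Om →+* Om)) ((h 1).map (s.θ.symm : Om →+* Om))
        ((h 2).map (s.θ.symm : Om →+* Om)) - C x := by
      have h2 := _root_.map_dvd (mapRingHom (s.θ.symm : Om →+* Om)) hh
      rw [map_sub, ← N3_mapRing] at h2
      simp only [coe_mapRingHom, Polynomial.map_map, Polynomial.map_C] at h2
      have e1 : ((s.θ.symm : Om →+* Om).comp (s.θ : Om →+* Om)) = RingHom.id Om := by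
        ext t; exact s.θ.symm_apply_apply t
      have e2 : (s.θ.symm : Om →+* Om) (s.θ (cc y b d)) = cc y b d := s.θ.symm_apply_apply _
      have e3 : (s.θ.symm : Om →+* Om) x = x := by
        change s.θ.symm x = x
        rw [RingEquiv.symm_apply_eq]
        exact s.θx.symm
      rw [e1, e2, e3, Polynomial.map_id] at h2
      exact h2
    obtain ⟨τ, G, hτ, hG1, hG2, hG3⟩ := c2_step s.F E E2 s.le hF2 hE hE2 f hf hsep hz s.hz
      (cc_mem s d) hc0 s.hx hx0 g (fun k => (h k).map (s.θ.symm : Om →+* Om)) hgE (by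
        intro k n
        rw [coeff_map]
        change s.θ (s.θ.symm ((h k).coeff n)) ∈ E
        rw [RingEquiv.apply_symm_apply]
        exact hhE k n) hg hh'
    obtain ⟨s', hs', hA⟩ := s.exists_ext τ (fun t ht => hτ t (isAlgebraic_algebraMap (⟨t, ht⟩ : s.F)))
      (⋃ k, Set.range (G k).coeff) (countable_coeffs G) (by
        rintro t ht
        obtain ⟨k, n, rfl⟩ := Set.mem_iUnion.1 ht
        exact hG1 k n) (by
        rintro t ht
        obtain ⟨k, n, rfl⟩ := Set.mem_iUnion.1 ht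
        exact hG2 k n)
    refine ⟨s', hs', fun _ _ _ => ⟨G, fun k n => hA _ (Set.mem_iUnion.2 ⟨k, n, rfl⟩), hG3⟩⟩
  · refine ⟨s, le_rfl, fun a1 a2 a3 => absurd ⟨a1, a2, a3⟩ h1⟩

/-- step (C3) -/
theorem step_c3 (hC3 : C3Hyp E z x y) (hy0 : y ≠ 0) (hb0 : b ≠ 0) (hb1 : ∃ c ∈ E, b = y * c ^ 3)
    (s : St E z x y b) (d : Bool) (t : Om[X][Y] × Om[X][Y] × Om[X][Y] × Om[X][Y] × Om[X][Y])
    (ht : appl s (Task.c3 d t)) :
    ∃ s', s ≤ s' ∧ solved s' (Task.c3 d t) := by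
  classical
  by_cases h1 : Irreducible t.1 ∧ 0 < t.1.natDegree ∧ ¬ t.1 ∣ t.2.2.2.2 ∧
      t.1 ∣ N3 (C (C (ca y b d))) t.2.1 t.2.2.1 t.2.2.2.1 - C (C x) * t.2.2.2.2 ^ 3
  · obtain ⟨hG, hpos, hQ, hdvd⟩ := h1
    obtain ⟨c1, hc1E, hc1⟩ := hb1
    have hc10 : c1 ≠ 0 := by rintro rfl; apply hb0; rw [hc1]; ring
    obtain ⟨c2, hc2E, hc2⟩ := s.θb
    have hc20 : c2 ≠ 0 := by
      rintro rfl
      have : s.θ b * y = 0 := by rw [hc2]; ring
      rcases mul_eq_zero.1 this with h | h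
      · exact hb0 ((map_eq_zero s.θ).1 h)
      · exact hy0 h
    have hcond : ca y b d ∈ s.F ∧ cb y b d ∈ s.F ∧ ca y b d ≠ 0 ∧ cb y b d ≠ 0 ∧ Rel E y (ca y b d) ∧
        Rel E y (s.θ (ca y b d)) ∧ (∃ c ∈ E, cb y b d = ca y b d * c ^ 3) ∧
        (∃ c ∈ E, s.θ (ca y b d * cb y b d) = c ^ 3) := by
      cases d
      · refine ⟨s.hb, s.hy, hb0, hy0, ⟨c1, hc1E, hc10, Or.inl hc1⟩, ⟨c2, hc2E, hc20, Or.inr hc2⟩,
          ⟨c1⁻¹, inv_mem hc1E, ?_⟩, ⟨c2, hc2E, ?_⟩⟩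
        · change y = b * c1⁻¹ ^ 3
          rw [hc1]; field_simp
        · change s.θ (b * y) = c2 ^ 3
          rw [map_mul, s.θy, hc2]
      · refine ⟨s.hy, s.hb, hy0, hb0, ⟨1, one_mem _, one_ne_zero, Or.inl (by simp [ca])⟩,
          ⟨1, one_mem _, one_ne_zero, Or.inl (by simp [ca, s.θy])⟩, ⟨c1, hc1E, hc1⟩, ⟨c2, hc2E, ?_⟩⟩
        change s.θ (y * b) = c2 ^ 3
        rw [map_mul, s.θy, mul_comm, hc2]
    obtain ⟨k1, k2, k3, k4, k5, k6, k7, k8⟩ := hcond
    obtain ⟨τ, H0, H1, H2, q, hτ, e0, e1, e2, e3, f0, f1, f2, f3, hq0, hdvd'⟩ :=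
      hC3 s.F s.θ s.cnt s.le s.mem s.hz s.hx s.hy s.θz s.θx s.θy _ _ k1 k2 k3 k4 k5 k6 k7 k8
        t.1 t.2.1 t.2.2.1 t.2.2.2.1 t.2.2.2.2 ht.1 ht.2.1 ht.2.2.1 ht.2.2.2.1 ht.2.2.2.2 hG hpos hQ hdvd
    obtain ⟨s', hs', hA⟩ := s.exists_ext τ hτ
      ((Set.range fun p : ℕ × ℕ => (H0.coeff p.1).coeff p.2) ∪ (Set.range fun p : ℕ × ℕ => (H1.coeff p.1).coeff p.2)
        ∪ (Set.range fun p : ℕ × ℕ => (H2.coeff p.1).coeff p.2) ∪ Set.range q.coeff)
      ((((Set.countable_range _).union (Set.countable_range _)).union (Set.countable_range _)).union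
        (Set.countable_range _)) (by
        rintro t (((⟨p, rfl⟩ | ⟨p, rfl⟩) | ⟨p, rfl⟩) | ⟨p, rfl⟩)
        · exact e0 _ _
        · exact e1 _ _
        · exact e2 _ _
        · exact e3 _) (by
        rintro t (((⟨p, rfl⟩ | ⟨p, rfl⟩) | ⟨p, rfl⟩) | ⟨p, rfl⟩)
        · exact f0 _ _
        · exact f1 _ _
        · exact f2 _ _
        · exact f3 _)
    refine ⟨s', hs', fun _ _ _ _ => ⟨H0, H1, H2, q, fun i j => hA _ ?_, fun i j => hA _ ?_, fun i j => hA _ ?_,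
      fun j => hA _ ?_, hq0, hdvd'⟩⟩
    · exact Or.inl (Or.inl (Or.inl ⟨(i, j), rfl⟩))
    · exact Or.inl (Or.inl (Or.inr ⟨(i, j), rfl⟩))
    · exact Or.inl (Or.inr ⟨(i, j), rfl⟩)
    · exact Or.inr ⟨j, rfl⟩
  · refine ⟨s, le_rfl, fun a1 a2 a3 a4 => absurd ⟨a1, a2, a3, a4⟩ h1⟩

/-- the whole sequence -/
theorem exists_seq (hE : Algebra.IsAlgebraic E Om) (hz : z ^ 2 + z + 1 = 0) (hx0 : x ≠ 0) (hy0 : y ≠ 0)
    (hb0 : b ≠ 0) (hC3 : C3Hyp E z x y) (hb1 : ∃ c ∈ E, b = y * c ^ 3) (s0 : St E z x y b) :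
    ∃ s : ℕ → St E z x y b, s 0 = s0 ∧ Monotone s ∧ ∀ n t, appl (s n) t → ∃ m, n ≤ m ∧ solved (s m) t := by
  apply dovetail appl solved appl_countable appl_mono
  intro s t ht
  cases t with
  | c1 f => exact step_c1 s f ht
  | c2 d f => exact step_c2 hE hz hx0 hy0 hb0 s d f ht
  | c3 d t => exact step_c3 hC3 hy0 hb0 hb1 s d t ht

end Pool.Agent.Helper51.SFinal
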