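import Pool.Agent.Helper51.SF.Steps

/-!
# The union of the tower
-/

set_option autoImplicit false
set_option linter.all false

open Polynomial Cardinal
open scoped Polynomial.Bivariate

namespace Pool.Agent.Helper51.SFinal

open SF Pool.Agent.Helper51.C2

section Retr

/-- the ring extension has a module retraction -/
def HasRetr {A B : Type*} [CommRing A] [CommRing B] (φ : A →+* B) : Prop :=
  ∃ ρ : B →+ A, (∀ a b, ρ (φ a * b) = a * ρ b) ∧ ρ 1 = 1

theorem HasRetr.dvd {A B : Type*} [CommRing A] [CommRing B] {φ : A →+* B} (h : HasRetr φ) {a b : A}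
    (hab : φ a ∣ φ b) : a ∣ b := by
  obtain ⟨ρ, h1, h2⟩ := h
  obtain ⟨c, hc⟩ := hab
  refine ⟨ρ c, ?_⟩
  rw [← h1, ← hc]
  have := h1 b 1
  rw [mul_one, h2, mul_one] at this
  exact this.symm

theorem HasRetr.poly {A B : Type*} [CommRing A] [CommRing B] {φ : A →+* B} (h : HasRetr φ) :
    HasRetr (mapRingHom φ) := by
  obtain ⟨ρ, h1, h2⟩ := h
  let f : B[X] → A[X] := fun p => ∑ i ∈ p.support, monomial i (ρ (p.coeff i))
  have hf : ∀ p n, (f p).coeff n = ρ (p.coeff n) := by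
    intro p n
    simp only [f, finsetSum_coeff, coeff_monomial]
    rw [Finset.sum_ite_eq']
    split_ifs with hn
    · rfl
    · rw [notMem_support_iff.1 hn, map_zero]
  refine ⟨{ toFun := f, map_zero' := ?_, map_add' := ?_ }, ?_, ?_⟩
  · ext n; rw [hf]; simp
  · intro p q; ext n; rw [coeff_add, hf, hf, hf]; simp
  · intro a b
    change f (mapRingHom φ a * b) = a * f b
    ext n
    rw [hf, coeff_mul, coeff_mul, map_sum]
    apply Finset.sum_congr rfl
    intro p _
    rw [hf, coe_mapRingHom, coeff_map, h1]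
  · change f 1 = 1
    ext n
    rw [hf, coeff_one, coeff_one]
    split_ifs
    · exact h2
    · exact map_zero ρ

theorem hasRetr_field {Om : Type*} [Field Om] (F : Subfield Om) : HasRetr F.subtype := by
  obtain ⟨g, hg⟩ := LinearMap.exists_leftInverse_of_injective (Algebra.linearMap F Om)
    (LinearMap.ker_eq_bot.2 (algebraMap F Om).injective)
  have h1 : ∀ a : F, g (algebraMap F Om a) = a := fun a => LinearMap.congr_fun hg a
  refine ⟨g.toAddMonoidHom, ?_, ?_⟩
  · intro a b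
    change g (algebraMap F Om a * b) = a * g b
    rw [← Algebra.smul_def, map_smul]
    rfl
  · change g 1 = 1
    have := h1 1
    rwa [map_one] at this

theorem dvd_of_bc_dvd {Om : Type*} [Field Om] (F : Subfield Om) {G P : F[X][Y]}
    (h : Pool.Agent.Helper740.RegExt.bc F.subtype G ∣ Pool.Agent.Helper740.RegExt.bc F.subtype P) : G ∣ P :=
  (hasRetr_field F).poly.poly.dvd h

end Retr

section Union

variable {Om : Type} [Field Om] [CharZero Om] [IsAlgClosed Om] [Uncountable Om]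
variable {E : Subfield Om} {z x y b : Om}

/-- the result of the tower construction -/
structure Fin' (E : Subfield Om) (z x y b : Om) where
  F : Subfield Om
  i2 : F →+* Om
  cnt : Countable F
  le : F ≤ E
  mem2 : ∀ t, i2 t ∈ E
  hz : z ∈ F
  hx : x ∈ F
  hy : y ∈ F
  hb : b ∈ F
  i2z : i2 ⟨z, hz⟩ = z
  i2x : i2 ⟨x, hx⟩ = x
  i2y : i2 ⟨y, hy⟩ = y
  i2b : ∃ c ∈ E, i2 ⟨b, hb⟩ * y = c ^ 3
  c1 : ∀ f : F[X], Irreducible f → (∃ r ∈ E, (f.map F.subtype).eval r = 0) →
    (∃ r ∈ E, (f.map i2).eval r = 0) → ∃ r : F, f.eval r = 0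
  c2 : ∀ (c : F), ((c : Om) = b / y ∨ (c : Om) = y * b) → ∀ f : F[X], f.Separable →
    (∃ g : Fin 3 → Om[X], (∀ k, CoefIn E (g k)) ∧
      f.map F.subtype ∣ N3 (C (c : Om)) (g 0) (g 1) (g 2) - C x) →
    (∃ g : Fin 3 → Om[X], (∀ k, CoefIn E (g k)) ∧ f.map i2 ∣ N3 (C (i2 c)) (g 0) (g 1) (g 2) - C x) →
    ∃ g : Fin 3 → F[X], f ∣ N3 (C c) (g 0) (g 1) (g 2) - C ⟨x, hx⟩
  c3 : ∀ (a b' : F), ((a : Om) = y ∧ (b' : Om) = b ∨ (a : Om) = b ∧ (b' : Om) = y) →
    ∀ G P0 P1 P2 Q : F[X][Y], Irreducible (Pool.Agent.Helper740.RegExt.bc F.subtype G) →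
    0 < G.natDegree → ¬ G ∣ Q → G ∣ N3 (C (C a)) P0 P1 P2 - C (C ⟨x, hx⟩) * Q ^ 3 →
    ∃ (H0 H1 H2 : F[X][Y]) (q : F[X]), q ≠ 0 ∧ G ∣ N3 (C (C b')) H0 H1 H2 - C (C ⟨x, hx⟩) * (C q) ^ 3

theorem exists_fin (hE : Algebra.IsAlgebraic E Om) (hz : z ^ 2 + z + 1 = 0) (hx0 : x ≠ 0) (hy0 : y ≠ 0)
    (hb0 : b ≠ 0) (hC3 : C3Hyp E z x y) (hb1 : ∃ c ∈ E, b = y * c ^ 3) (s0 : St E z x y b) :
    Nonempty (Fin' E z x y b) := by
  classical
  obtain ⟨s, hs0, hmono, hsol⟩ := exists_seq hE hz hx0 hy0 hb0 hC3 hb1 s0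
  have hFmono : Monotone (fun n => (s n).F) := fun m n h => (hmono h).1
  let F : Subfield Om := ⨆ n, (s n).F
  have hmemF : ∀ t, t ∈ F ↔ ∃ n, t ∈ (s n).F := by
    intro t
    have := Subfield.mem_iSup_of_directed (S := fun n => (s n).F) hFmono.directed_le (x := t)
    exact this
  have hle : ∀ n, (s n).F ≤ F := fun n t ht => (hmemF t).2 ⟨n, ht⟩
  have hfin : ∀ A : Set Om, A.Finite → A ⊆ (F : Set Om) → ∃ n, A ⊆ ((s n).F : Set Om) := by
    intro A hA
    induction A, hA using Set.Finite.induction_on with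
    | empty => intro _; exact ⟨0, Set.empty_subset _⟩
    | insert ha _ ih =>
      intro hsub
      obtain ⟨n, hn⟩ := ih ((Set.subset_insert _ _).trans hsub)
      obtain ⟨m, hm⟩ := (hmemF _).1 (hsub (Set.mem_insert _ _))
      refine ⟨max n m, ?_⟩
      rintro t (rfl | ht)
      · exact hFmono (le_max_right n m) hm
      · exact hFmono (le_max_left n m) (hn ht)
  have hcoef : ∀ p : Om[X], CoefIn F p → ∃ n, CoefIn (s n).F p := by
    intro p hp
    obtain ⟨n, hn⟩ := hfin (p.coeff '' (p.support : Set ℕ)) ((Finset.finite_toSet _).image _)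
      (by rintro _ ⟨i, _, rfl⟩; exact hp i)
    refine ⟨n, fun i => ?_⟩
    by_cases hi : i ∈ p.support
    · exact hn ⟨i, hi, rfl⟩
    · rw [notMem_support_iff.1 hi]; exact zero_mem _
  have hcoef2 : ∀ p : Om[X][Y], Coef2In F p → ∃ n, Coef2In (s n).F p := by
    intro p hp
    have h1 : ∀ i, ∃ n, CoefIn (s n).F (p.coeff i) := fun i => hcoef _ (hp i)
    choose N hN using h1
    refine ⟨p.support.sup N, fun i j => ?_⟩
    by_cases hi : i ∈ p.support
    · exact hFmono (Finset.le_sup hi) (hN i j)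
    · rw [notMem_support_iff.1 hi, coeff_zero]; exact zero_mem _
  have hagree : ∀ {m n : ℕ} {t : Om}, m ≤ n → t ∈ (s m).F → (s n).θ t = (s m).θ t :=
    fun h ht => (hmono h).2 _ ht
  let idx : F → ℕ := fun t => Nat.find ((hmemF t.1).1 t.2)
  have hidx : ∀ t : F, t.1 ∈ (s (idx t)).F := fun t => Nat.find_spec ((hmemF t.1).1 t.2)
  have hi2' : ∀ (t : F) (n : ℕ), t.1 ∈ (s n).F → (s (idx t)).θ t.1 = (s n).θ t.1 := by
    intro t n hn
    exact (hagree (Nat.find_min' _ hn) (hidx t)).symm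
  let i2 : F →+* Om :=
    { toFun := fun t => (s (idx t)).θ t.1
      map_one' := by
        change (s (idx 1)).θ (1 : Om) = 1
        exact map_one _
      map_zero' := by
        change (s (idx 0)).θ (0 : Om) = 0
        exact map_zero _
      map_mul' := by
        intro t u
        have h1 : t.1 ∈ (s (max (idx t) (idx u))).F := hFmono (le_max_left _ _) (hidx t)
        have h2 : u.1 ∈ (s (max (idx t) (idx u))).F := hFmono (le_max_right _ _) (hidx u)
        rw [hi2' t _ h1, hi2' u _ h2, hi2' (t * u) _ (mul_mem h1 h2)]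
        exact map_mul _ _ _
      map_add' := by
        intro t u
        have h1 : t.1 ∈ (s (max (idx t) (idx u))).F := hFmono (le_max_left _ _) (hidx t)
        have h2 : u.1 ∈ (s (max (idx t) (idx u))).F := hFmono (le_max_right _ _) (hidx u)
        rw [hi2' t _ h1, hi2' u _ h2, hi2' (t + u) _ (add_mem h1 h2)]
        exact map_add _ _ _ }
  have hi2 : ∀ (t : F) (n : ℕ), t.1 ∈ (s n).F → i2 t = (s n).θ t.1 := hi2'
  have hmapi2 : ∀ (f : F[X]) (n : ℕ), CoefIn (s n).F (f.map F.subtype) →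
      (f.map F.subtype).map ((s n).θ : Om →+* Om) = f.map i2 := by
    intro f n hn
    ext i
    rw [coeff_map, coeff_map, coeff_map]
    have := hn i
    rw [coeff_map] at this
    exact (hi2 _ n this).symm
  refine ⟨{ F := F, i2 := i2, cnt := ?_, le := ?_, mem2 := ?_, hz := hle 0 (s 0).hz, hx := hle 0 (s 0).hx,
            hy := hle 0 (s 0).hy, hb := hle 0 (s 0).hb, i2z := (hi2 _ 0 (s 0).hz).trans (s 0).θz,
            i2x := (hi2 _ 0 (s 0).hx).trans (s 0).θx, i2y := (hi2 _ 0 (s 0).hy).trans (s 0).θy,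
            i2b := ?_, c1 := ?_, c2 := ?_, c3 := ?_ }⟩
  · have h1 : (F : Set Om) = ⋃ n, ((s n).F : Set Om) := by
      ext t; rw [Set.mem_iUnion]; exact hmemF t
    have h2 : (F : Set Om).Countable := by
      rw [h1]
      exact Set.countable_iUnion (fun n => Set.countable_coe_iff.1 (s n).cnt)
    exact Set.countable_coe_iff.2 h2
  · intro t ht
    obtain ⟨n, hn⟩ := (hmemF t).1 ht
    exact (s n).le hn
  · intro t
    rw [hi2 t _ (hidx t)]
    exact (s _).mem _ (hidx t)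
  · rw [hi2 _ 0 (s 0).hb]
    exact (s 0).θb
  · intro f hirr h1 h2
    obtain ⟨n, hn⟩ := hcoef _ (coefIn_map F f)
    obtain ⟨m, hnm, hm⟩ := hsol n (Task.c1 (f.map F.subtype)) hn
    have hn' : CoefIn (s m).F (f.map F.subtype) := hn.mono (hFmono hnm)
    obtain ⟨r, hr, hr0⟩ := hm (by
      intro g h hg hh hfg
      obtain ⟨g', rfl⟩ := CoefIn.exists_map (hg.mono (hle m))
      obtain ⟨h', rfl⟩ := CoefIn.exists_map (hh.mono (hle m))
      rw [← Polynomial.map_mul] at hfg
      have hfg' := Polynomial.map_injective _ F.subtype.injective hfg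
      rcases hirr.isUnit_or_isUnit hfg' with hu | hu
      · left; rw [natDegree_map]; exact natDegree_eq_zero_of_isUnit hu
      · right; rw [natDegree_map]; exact natDegree_eq_zero_of_isUnit hu) h1 (by
      rw [hmapi2 f m hn']; exact h2)
    refine ⟨⟨r, hle m hr⟩, ?_⟩
    apply F.subtype.injective
    rw [map_zero, ← eval₂_at_apply, ← eval_map]
    exact hr0
  · intro c hc f hsep h1 h2
    obtain ⟨d, hd⟩ : ∃ d, (c : Om) = cc y b d := by
      rcases hc with h | h
      · exact ⟨true, h⟩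
      · exact ⟨false, h⟩
    obtain ⟨n, hn⟩ := hcoef _ (coefIn_map F f)
    obtain ⟨m, hnm, hm⟩ := hsol n (Task.c2 d (f.map F.subtype)) hn
    have hn' : CoefIn (s m).F (f.map F.subtype) := hn.mono (hFmono hnm)
    have hcm : (c : Om) ∈ (s m).F := by rw [hd]; exact cc_mem (s m) d
    obtain ⟨g, hg, hdvd⟩ := hm (hsep.map) (by rw [← hd]; exact h1) (by
      rw [hmapi2 f m hn', ← hd, ← hi2 c m hcm]; exact h2)
    have hg' : ∀ k, ∃ g' : F[X], g'.map F.subtype = g k := fun k => CoefIn.exists_map ((hg k).mono (hle m))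
    choose g' hg' using hg'
    refine ⟨g', ?_⟩
    rw [← Polynomial.map_dvd_map' F.subtype]
    rw [← hd] at hdvd
    have e : (N3 (C c) (g' 0) (g' 1) (g' 2) - C (⟨x, hle 0 (s 0).hx⟩ : F)).map F.subtype =
        N3 (C (c : Om)) (g 0) (g 1) (g 2) - C x := by
      rw [Polynomial.map_sub, ← coe_mapRingHom, ← N3_mapRing]
      simp only [coe_mapRingHom, Polynomial.map_C, hg']
      rfl
    rw [e]
    exact hdvd
  · intro a b' hab G P0 P1 P2 Q hG hpos hQ hdvd
    obtain ⟨d, hda, hdb⟩ : ∃ d, (a : Om) = ca y b d ∧ (b' : Om) = cb y b d := by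
      rcases hab with h | h
      · exact ⟨true, h⟩
      · exact ⟨false, h⟩
    let β := Pool.Agent.Helper740.RegExt.bc F.subtype
    obtain ⟨n0, hn0⟩ := hcoef2 _ (coef2In_bc F G)
    obtain ⟨n1, hn1⟩ := hcoef2 _ (coef2In_bc F P0)
    obtain ⟨n2, hn2⟩ := hcoef2 _ (coef2In_bc F P1)
    obtain ⟨n3, hn3⟩ := hcoef2 _ (coef2In_bc F P2)
    obtain ⟨n4, hn4⟩ := hcoef2 _ (coef2In_bc F Q)
    let n := max n0 (max n1 (max n2 (max n3 n4)))
    obtain ⟨m, hnm, hm⟩ := hsol n (Task.c3 d (β G, β P0, β P1, β P2, β Q))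
      ⟨hn0.mono (hFmono (by omega)), hn1.mono (hFmono (by omega)), hn2.mono (hFmono (by omega)),
        hn3.mono (hFmono (by omega)), hn4.mono (hFmono (by omega))⟩
    have hN : ∀ (c : F) (A0 A1 A2 : F[X][Y]), N3 (C (C (c : Om))) (β A0) (β A1) (β A2) =
        β (N3 (C (C c)) A0 A1 A2) := by
      intro c A0 A1 A2
      rw [← N3_mapRing]
      congr 1
      simp [β, Pool.Agent.Helper740.RegExt.bc]
    have hxx : (C (C x) : Om[X][Y]) = β (C (C ⟨x, hle 0 (s 0).hx⟩)) := by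
      simp [β, Pool.Agent.Helper740.RegExt.bc]
    obtain ⟨H0, H1, H2, q, hH0, hH1, hH2, hq, hq0, hdvd'⟩ := hm hG (by
        change 0 < (β G).natDegree
        rw [Pool.Agent.Helper740.RegExt.natDegree_bc]; exact hpos) (fun h => hQ (dvd_of_bc_dvd F h)) (by
        change β G ∣ N3 (C (C (ca y b d))) (β P0) (β P1) (β P2) - C (C x) * (β Q) ^ 3
        rw [← hda, hN, hxx, ← map_pow, ← map_mul, ← map_sub]
        exact _root_.map_dvd β hdvd)
    obtain ⟨H0', rfl⟩ := Coef2In.exists_bc (hH0.mono (hle m))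
    obtain ⟨H1', rfl⟩ := Coef2In.exists_bc (hH1.mono (hle m))
    obtain ⟨H2', rfl⟩ := Coef2In.exists_bc (hH2.mono (hle m))
    obtain ⟨q', rfl⟩ := CoefIn.exists_map (hq.mono (hle m))
    refine ⟨H0', H1', H2', q', ?_, ?_⟩
    · rintro rfl
      exact hq0 (by simp)
    · apply dvd_of_bc_dvd F
      have e : (C (q'.map F.subtype) : Om[X][Y]) = β (C q') := by
        simp [β, Pool.Agent.Helper740.RegExt.bc]
      have hdvd'' : β G ∣ N3 (C (C (cb y b d))) (β H0') (β H1') (β H2') - C (C x) * (C (q'.map F.subtype)) ^ 3 :=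
        hdvd'
      rw [← hdb, hN, hxx, e, ← map_pow, ← map_mul, ← map_sub] at hdvd''
      exact hdvd''

end Union

end Pool.Agent.Helper51.SFinal
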